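import Pool.Agent.W993.MC.Stm

set_option autoImplicit false

namespace Pool.Agent.W337.MC

open Pool.Agent.W993.MC

theorem seq_lemma (x A c : ℕ → ℂ) (M : ℕ) :
    (∑ l ∈ Finset.range M, x l * A l) * (∑ m ∈ Finset.range M, c m)
      = (∑ l ∈ Finset.range M, c l * ∑ k ∈ Finset.range l, x k * A k)
        + (∑ l ∈ Finset.range M, x l * c l * A l)
        + ∑ l ∈ Finset.range M, x l * (A l * ∑ m ∈ Finset.range l, c m) := by
  induction M with
  | zero => simp
  | succ M ih =>
    simp only [Finset.sum_range_succ]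
    linear_combination ih

theorem list_lemma (w : ℕ → ℂ) (M : ℕ) (Ks : List (List (ℕ × ℂ))) :
    ∑ l ∈ Finset.range M, w l * ((Ks.map (fun K => S K l)).sum)
      = (Ks.map (fun K => ∑ l ∈ Finset.range M, w l * S K l)).sum := by
  induction Ks with
  | nil => simp
  | cons K Ks ih =>
    simp only [List.map_cons, List.sum_cons, mul_add, Finset.sum_add_distrib]
    rw [ih]

theorem S_single (c : ℕ × ℂ) (M : ℕ) :
    S [c] M = ∑ l ∈ Finset.range M, c.2 ^ (l + 1) / ((l : ℂ) + 1) ^ c.1 := by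
  obtain ⟨b, u⟩ := c
  simp only [S, mul_one]

theorem S_cons (x : ℕ × ℂ) (L : List (ℕ × ℂ)) (M : ℕ) :
    S (x :: L) M = ∑ l ∈ Finset.range M, x.2 ^ (l + 1) / ((l : ℂ) + 1) ^ x.1 * S L l := by
  obtain ⟨a, z⟩ := x
  simp only [S]

theorem ins_main : S_INS := by
  intro c L
  induction L with
  | nil =>
    intro M
    simp [ins, S]
  | cons x L ih =>
    intro M
    rw [S_cons x L M, S_single c M, seq_lemma]
    have h1 : (∑ l ∈ Finset.range M, c.2 ^ (l + 1) / ((l : ℂ) + 1) ^ c.1 *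
        ∑ k ∈ Finset.range l, x.2 ^ (k + 1) / ((k : ℂ) + 1) ^ x.1 * S L k)
        = S (c :: x :: L) M := by
      rw [S_cons c (x :: L) M]
      refine Finset.sum_congr rfl fun l _ => ?_
      rw [S_cons x L l]
    have h2 : (∑ l ∈ Finset.range M, x.2 ^ (l + 1) / ((l : ℂ) + 1) ^ x.1 *
        (c.2 ^ (l + 1) / ((l : ℂ) + 1) ^ c.1) * S L l) = S ((x.1 + c.1, x.2 * c.2) :: L) M := by
      rw [S_cons]
      refine Finset.sum_congr rfl fun l _ => ?_
      have hl : ((l : ℂ) + 1) ≠ 0 := Nat.cast_add_one_ne_zero l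
      simp only [mul_pow, pow_add]
      field_simp
    have h3 : (∑ l ∈ Finset.range M, x.2 ^ (l + 1) / ((l : ℂ) + 1) ^ x.1 *
        (S L l * ∑ m ∈ Finset.range l, c.2 ^ (m + 1) / ((m : ℂ) + 1) ^ c.1))
        = (((ins c L).map (fun K => x :: K)).map (fun K => S K M)).sum := by
      have h4 : ∀ l ∈ Finset.range M, x.2 ^ (l + 1) / ((l : ℂ) + 1) ^ x.1 *
          (S L l * ∑ m ∈ Finset.range l, c.2 ^ (m + 1) / ((m : ℂ) + 1) ^ c.1)
          = x.2 ^ (l + 1) / ((l : ℂ) + 1) ^ x.1 * ((ins c L).map (fun K => S K l)).sum := by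
        intro l _
        rw [← S_single c l, ih l]
      rw [Finset.sum_congr rfl h4, list_lemma, List.map_map]
      congr 1
    rw [h1, h2, h3]
    simp only [ins, List.map_cons, List.sum_cons]
    ring

end Pool.Agent.W337.MC
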